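import Pool.Agent.PurNrd.Final

/-!
MP_dd57ce_ag (purity for torsors under reductive group schemes), existence half, inner type A.

`R` is a regular local ring (Mathlib's `IsRegularLocalRing`: noetherian, local, the maximal ideal is
generated by `dim R` elements; any dimension), `K` its field of fractions, of characteristic zero.
`IsReducedNorm K s c` (file `Pool/Agent/PurNrd/Nrd.lean`): there are a field extension `L` of `K` and an
isomorphism of `L`-algebras `φ` from `L ⊗ S` to the `n × n` matrices over `L` such that the determinant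
of `φ (1 ⊗ s)` is `c`; for a central simple algebra `S` this says that `c` is the reduced norm of `s`.

The theorem: let `A 1, .., A m` be `K`-algebras whose Brauer classes come from `R` (some matrix algebra
over `A j` is `K ⊗ B` with `B` Azumaya over `R`), `c` a vector of nonzero elements of `K` and `l` an
integer matrix. Suppose that for every prime `p` of height one, `c i` is a unit of the local ring `R_p`
times `∏ j, Nrd (b j) ^ l j i` for units `b j` of `A j` (a unit of `R_p` is written as a fraction
`a i / s i` with `a i` and `s i` outside `p`). Then the `A j` come from Azumaya algebras over `R` and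
`c i` is a unit of `R` times `∏ j, Nrd (b j) ^ l j i` for units `b j` of `A j`.
-/

set_option autoImplicit false

namespace Pool.Agent.Results.MP_dd57ce_ag.InnerTypeA

open TensorProduct Pool.Agent.PurNrd

universe u

theorem result {R : Type u} [CommRing R] [IsRegularLocalRing R]
    (K : Type u) [Field K] [Algebra R K] [IsFractionRing R K] [CharZero K]
    {m r : ℕ} (A : Fin m → Type u) [∀ j, Ring (A j)] [∀ j, Algebra K (A j)]
    (hA : ∀ j, ∃ (B : Type u) (_ : Ring B) (_ : Algebra R B) (k : ℕ), IsAzumaya R B ∧ k ≠ 0 ∧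
      Nonempty (Matrix (Fin k) (Fin k) (A j) ≃ₐ[K] K ⊗[R] B))
    (l : Fin m → Fin r → ℤ) (c : Fin r → Kˣ)
    (h : ∀ p : Ideal R, p.IsPrime → p.height = 1 →
      ∃ (a s : Fin r → R) (b : ∀ j, (A j)ˣ) (ν : Fin m → K),
        (∀ i, a i ∉ p ∧ s i ∉ p) ∧ (∀ j, IsReducedNorm K (b j : A j) (ν j)) ∧
        ∀ i, algebraMap R K (s i) * c i = algebraMap R K (a i) * ∏ j, ν j ^ l j i) :
    ∃ (C : Fin m → Type u) (_ : ∀ j, Ring (C j)) (_ : ∀ j, Algebra R (C j)),
      (∀ j, IsAzumaya R (C j)) ∧ (∀ j, Nonempty ((K ⊗[R] C j) ≃ₐ[K] A j)) ∧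
      ∃ (a : Fin r → Rˣ) (b : ∀ j, (A j)ˣ) (ν : Fin m → K),
        (∀ j, IsReducedNorm K (b j : A j) (ν j)) ∧
        ∀ i, (c i : K) = algebraMap R K (a i) * ∏ j, ν j ^ l j i :=
  purity_forms K A hA l c h

end Pool.Agent.Results.MP_dd57ce_ag.InnerTypeA
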