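import Pool.Agent.SLtwo.Final
import Pool.Agent.SLtwo.PurD

/-!
MP_dd57ce_ag (purity for torsors under reductive group schemes) for the groups `SL_1(B)` and their
Weil restrictions, dimension at most three.

`R` is a semilocal regular domain of dimension at most three (noetherian, finitely many maximal
ideals, all localizations at them are regular; in particular any regular local ring of dimension at
most three), `K` its field of fractions, of characteristic zero, `B` an Azumaya algebra over `R`.
`IsReducedNorm K s c` (file `Pool/Agent/PurNrd/Defs.lean`): there are a field extension `L` of `K` and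
an isomorphism of `L`-algebras `φ` from `L ⊗ S` to the `n × n` matrices over `L` such that the
determinant of `φ (1 ⊗ s)` is `c`; for a central simple algebra `S` this says that `c` is the reduced
norm of `s`.

The theorem: assume that the normalization of `R/q` is finite over `R/q` for all primes `q` of height
two.
* Existence: if `c` in `K` is nonzero and for every prime `p` of height one it is a unit of `R_p` times
  the reduced norm of a unit of `K ⊗ B` (the unit of `R_p` is written as a fraction `a / s` with `a`
  and `s` outside `p`), then `c` is a unit of `R` times the reduced norm of a unit of `K ⊗ B`.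
* Uniqueness: every unit of `R` which is a reduced norm from `K ⊗ B` is the reduced norm of a unit
  of `B`.
-/

set_option autoImplicit false

namespace Pool.Agent.Results.MP_dd57ce_ag.NormsDimThree

open TensorProduct Pool.Agent.PurNrd

universe u

theorem result {R : Type u} [CommRing R] [IsDomain R] [IsNoetherianRing R]
    [Finite (MaximalSpectrum R)]
    (hreg : ∀ (P : Ideal R) [P.IsMaximal], IsRegularLocalRing (Localization.AtPrime P))
    (hd : ringKrullDim R ≤ 3)
    (hfin : ∀ q : Ideal R, q.IsPrime → q.height = 2 →
      Module.Finite (R ⧸ q) (integralClosure (R ⧸ q) (FractionRing (R ⧸ q))))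
    (K : Type u) [Field K] [Algebra R K] [IsFractionRing R K] [CharZero K]
    (B : Type u) [Ring B] [Algebra R B] [IsAzumaya R B] :
    (∀ c : K, c ≠ 0 →
      (∀ p : Ideal R, p.IsPrime → p.height = 1 →
        ∃ (a s : R) (b : (K ⊗[R] B)ˣ) (ν : K), a ∉ p ∧ s ∉ p ∧
          IsReducedNorm K (b : K ⊗[R] B) ν ∧
          algebraMap R K s * c = algebraMap R K a * ν) →
      ∃ (u : Rˣ) (b : (K ⊗[R] B)ˣ) (ν : K),
        IsReducedNorm K (b : K ⊗[R] B) ν ∧ c = algebraMap R K u * ν) ∧
    (∀ u : Rˣ, (∃ b : K ⊗[R] B, IsReducedNorm K b (algebraMap R K u)) →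
      ∃ b : Bˣ, IsReducedNorm K ((1 : K) ⊗ₜ[R] (b : B)) (algebraMap R K u)) := by
  have : Pool.Agent.SLtwo.SemiReg R := ⟨inferInstance, inferInstance, inferInstance, hreg⟩
  refine ⟨fun c hc h => ?_, fun u h => ?_⟩
  · obtain ⟨a, b, ν, h1, h2⟩ := Pool.Agent.SLtwo.purity (m := 1) (r := 1) (fun _ => B) K
      (fun _ _ => 1) (fun _ => c) (fun _ => hc) (by
        intro p hp hp1
        obtain ⟨a, s, b, ν, ha, hs, hb, e⟩ := h p hp hp1
        exact ⟨fun _ => a, fun _ => s, fun _ => b, fun _ => ν, fun _ => ⟨ha, hs⟩, fun _ => hb,
          fun _ => by simpa using e⟩)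
    exact ⟨a 0, b 0, ν 0, h1 0, by simpa using h2 0⟩
  · obtain ⟨b, hb⟩ := h
    exact Pool.Agent.SLtwo.unit_nrd hd hfin K u b hb

end Pool.Agent.Results.MP_dd57ce_ag.NormsDimThree
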